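import Pool.Agent.Y53.FP.Final

/-!
MP_7b119f_an, Q1 and Q2, for discrete metric spaces which need not be complete: there is a countable,
totally bounded metric space `M`, all of whose points are isolated, such that for every `p` in
`(0, 1]` the Lipschitz free `p`-space over `M` fails the approximation property.

The space is `M = ⋃ n, F n × {2⁻ⁿ}` in `C × ℝ`, where `C` is the compact set of `main_aux` and `F n`
is a finite `2⁻ⁿ`-net of `C`.
-/

set_option autoImplicit false

open Set Filter Topology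
open Pool.Agent.H548R3.PFree Pool.Agent.H548R3.NoAP Pool.Agent.Y53.FP

namespace Pool.Agent.Results.MP_7b119f_an.IncompleteDiscreteNoAP

/-- The points of the discrete space. -/
def Pts {C : Type} (F : ℕ → Set C) : Set (C × ℝ) := {q | ∃ n : ℕ, q.2 = (1 / 2 : ℝ) ^ n ∧ q.1 ∈ F n}

section

variable {C : Type} [MetricSpace C] (F : ℕ → Set C)

lemma half_inj {m n : ℕ} (h : (1 / 2 : ℝ) ^ m = (1 / 2) ^ n) : m = n :=
  pow_right_injective₀ (by norm_num) (by norm_num) h

omit [MetricSpace C] in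
lemma countable_pts (hF : ∀ n, (F n).Finite) : Countable (Pts F) := by
  have : Pts F = ⋃ n : ℕ, (fun c : C => (c, (1 / 2 : ℝ) ^ n)) '' F n := by
    ext q
    simp only [Pts, mem_ofPred_eq, mem_iUnion, mem_image]
    constructor
    · rintro ⟨n, h1, h2⟩
      exact ⟨n, q.1, h2, Prod.ext rfl h1.symm⟩
    · rintro ⟨n, c, hc, rfl⟩
      exact ⟨n, rfl, hc⟩
  rw [this]
  exact (countable_iUnion fun n => ((hF n).image _).countable).to_subtype

lemma isolated (hF : ∀ n, (F n).Finite) (x : Pts F) :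
    ∃ r : ℝ, 0 < r ∧ ∀ y : Pts F, dist y x < r → y = x := by
  obtain ⟨⟨c, t⟩, n, ht, hc⟩ := x
  simp only at ht hc
  subst ht
  -- the points of level `n`
  have hfin : ((fun c : C => (c, (1 / 2 : ℝ) ^ n)) '' F n \ {(c, (1 / 2 : ℝ) ^ n)}).Finite :=
    ((hF n).image _).subset sdiff_subset
  have hcl := hfin.isClosed.isOpen_compl
  obtain ⟨r, hr, hball⟩ := Metric.isOpen_iff.1 hcl (c, (1 / 2 : ℝ) ^ n) (by simp)
  refine ⟨min r ((1 / 2 : ℝ) ^ (n + 1)), lt_min hr (by positivity), ?_⟩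
  rintro ⟨⟨c', t'⟩, m, ht', hc'⟩ hd
  simp only at ht' hc'
  subst ht'
  have hd' : dist ((c', (1 / 2 : ℝ) ^ m) : C × ℝ) (c, (1 / 2 : ℝ) ^ n) <
      min r ((1 / 2 : ℝ) ^ (n + 1)) := hd
  have h2 : |(1 / 2 : ℝ) ^ m - (1 / 2) ^ n| < (1 / 2) ^ (n + 1) := by
    have h3 : dist ((1 / 2 : ℝ) ^ m) ((1 / 2 : ℝ) ^ n) ≤
        dist ((c', (1 / 2 : ℝ) ^ m) : C × ℝ) (c, (1 / 2 : ℝ) ^ n) := by
      rw [Prod.dist_eq]; exact le_max_right _ _
    rw [Real.dist_eq] at h3
    exact (h3.trans_lt hd').trans_le (min_le_right _ _)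
  have hmn : m = n := by
    rcases lt_trichotomy m n with h | h | h
    · exfalso
      have h4 : (1 / 2 : ℝ) ^ n ≤ (1 / 2) ^ (m + 1) :=
        pow_le_pow_of_le_one (by norm_num) (by norm_num) h
      have h5 := (abs_lt.1 h2).2
      rw [pow_succ] at h4 h5
      have h6 : (0 : ℝ) < (1 / 2) ^ m := by positivity
      nlinarith
    · exact h
    · exfalso
      have h4 : (1 / 2 : ℝ) ^ m ≤ (1 / 2) ^ (n + 1) :=
        pow_le_pow_of_le_one (by norm_num) (by norm_num) h
      have h5 := (abs_lt.1 h2).1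
      rw [pow_succ] at h4 h5
      linarith
  subst hmn
  have h6 := hball (Metric.mem_ball.2 (hd'.trans_le (min_le_left _ _)))
  have h7 : ((c', (1 / 2 : ℝ) ^ m) : C × ℝ) = (c, (1 / 2 : ℝ) ^ m) := by
    by_contra hne
    exact h6 ⟨⟨c', hc', rfl⟩, hne⟩
  exact Subtype.ext h7

lemma totallyBounded_pts [CompactSpace C] : TotallyBounded (univ : Set (Pts F)) := by
  have h1 : TotallyBounded (Pts F) := by
    have h2 : IsCompact ((univ : Set C) ×ˢ Icc (0 : ℝ) 1) := isCompact_univ.prod isCompact_Icc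
    refine h2.totallyBounded.subset ?_
    rintro ⟨c, t⟩ ⟨n, ht, -⟩
    simp only at ht
    subst ht
    exact ⟨mem_univ _, by positivity, pow_le_one₀ (by norm_num) (by norm_num)⟩
  have h3 := totallyBounded_preimage
    (isUniformEmbedding_subtype_val (p := (· ∈ Pts F))).isUniformInducing h1
  refine h3.subset fun x _ => x.2

end

/-- **MP_7b119f_an, Q1 and Q2.** -/
theorem result : ∃ (M : Type) (_ : MetricSpace M), Countable M ∧
    TotallyBounded (univ : Set M) ∧
    (∀ x : M, ∃ r : ℝ, 0 < r ∧ ∀ y : M, dist y x < r → y = x) ∧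
    ∀ (o : M) (p : ℝ), 0 < p → p ≤ 1 →
      (∃ (Z : Type) (_ : NormedAddCommGroup Z) (_ : Module ℝ Z) (δ : M → Z),
        IsLipschitzFree p M o Z δ) ∧
      ∀ (Z : Type) [NormedAddCommGroup Z] [Module ℝ Z] (δ : M → Z),
        IsLipschitzFree p M o Z δ → ¬ HasAP p Z := by
  obtain ⟨C, hCc, -, hC⟩ := main_aux ap_E
  have : CompactSpace C := isCompact_iff_compactSpace.1 hCc
  have hnet : ∀ n : ℕ, ∃ F : Set C, F.Finite ∧ ∀ c : C, ∃ x ∈ F, dist c x < (1 / 2 : ℝ) ^ n := by
    intro n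
    obtain ⟨t, -, ht, hcov⟩ := Metric.finite_approx_of_totallyBounded
      (isCompact_univ (X := C)).totallyBounded ((1 / 2 : ℝ) ^ n) (by positivity)
    refine ⟨t, ht, fun c => ?_⟩
    obtain ⟨x, hx, hcx⟩ := mem_iUnion₂.1 (hcov (mem_univ c))
    exact ⟨x, hx, hcx⟩
  choose F hF hcov using hnet
  refine ⟨Pts F, inferInstance, countable_pts F hF, totallyBounded_pts F, isolated F hF,
    fun o p h0 h1 => ?_⟩
  have hp : Fact (0 < p ∧ p ≤ 1) := ⟨h0, h1⟩
  refine ⟨⟨FF p (Pts F), inferInstance, inferInstance, fun x => cl x o, isLipschitzFree o⟩, ?_⟩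
  intro Z _ _ δ h
  have := h.banach.2
  choose a haF hac using hcov
  -- approximating points
  let b : C → ℕ → Pts F := fun c n => ⟨(a n c, (1 / 2 : ℝ) ^ n), n, rfl, haF n c⟩
  have hhalf : Tendsto (fun n : ℕ => (1 / 2 : ℝ) ^ n) atTop (𝓝 0) :=
    tendsto_pow_atTop_nhds_zero_of_lt_one (by norm_num) (by norm_num)
  have ha : ∀ c, Tendsto (fun n => a n c) atTop (𝓝 c) := by
    intro c
    rw [tendsto_iff_dist_tendsto_zero]
    refine squeeze_zero (fun _ => dist_nonneg) (fun n => ?_) hhalf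
    rw [dist_comm]
    exact (hac n c).le
  have hb : ∀ c, Tendsto (fun n => ((b c n : Pts F) : C × ℝ)) atTop (𝓝 (c, 0)) := fun c =>
    (ha c).prodMk_nhds hhalf
  have hdn : ∀ x y : Pts F, dist (δ x) (δ y) = dist x y ^ p := by
    intro x y
    rw [dist_eq_norm, ← h.isometric x y, pnorm_rpow]
  have hcau : ∀ c, ∃ z, Tendsto (fun n => δ (b c n)) atTop (𝓝 z) := by
    intro c
    refine cauchySeq_tendsto_of_complete ?_
    have h2 : CauchySeq (fun n => ((b c n : Pts F) : C × ℝ)) := (hb c).cauchySeq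
    rw [cauchySeq_iff_tendsto_dist_atTop_0] at h2 ⊢
    have h3 := h2.rpow_const (p := p) (Or.inr h0.le)
    rw [Real.zero_rpow h0.ne'] at h3
    refine h3.congr fun q => ?_
    exact (hdn _ _).symm
  choose δ' hδ' using hcau
  obtain ⟨β, hβ, -⟩ := h.lift (Snow p E) (isPBanach_snow p E)
    (fun y => toSnow (((y : C × ℝ).1 : E) - ((o : C × ℝ).1 : E)) : Pts F → Snow p E) (by
      show (((o : C × ℝ).1 : E) - ((o : C × ℝ).1 : E)) = 0
      rw [sub_self])
    ⟨1, fun x y => by
      rw [pnorm_snow]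
      show ‖(((x : C × ℝ).1 : E) - ((o : C × ℝ).1 : E)) -
        (((y : C × ℝ).1 : E) - ((o : C × ℝ).1 : E))‖ ≤ _
      rw [sub_sub_sub_cancel_right, one_mul, ← dist_eq_norm, ← Subtype.dist_eq]
      show _ ≤ dist (x : C × ℝ) (y : C × ℝ)
      rw [Prod.dist_eq]
      exact le_max_left _ _⟩
  refine hC p h0 Z h.banach.1 δ' 1 zero_le_one (fun s s' => ?_)
    ((snowCLM p E).comp β) (fun s s' => ?_)
  · have h2 : Tendsto (fun n => dist (δ (b s n)) (δ (b s' n))) atTop (𝓝 (dist (δ' s) (δ' s'))) :=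
      (hδ' s).dist (hδ' s')
    have h3 : Tendsto (fun n => dist (δ (b s n)) (δ (b s' n))) atTop (𝓝 (dist s s' ^ p)) := by
      have h4 : Tendsto (fun n => dist ((b s n : Pts F) : C × ℝ) (b s' n)) atTop
          (𝓝 (dist ((s, 0) : C × ℝ) (s', 0))) := (hb s).dist (hb s')
      have h5 : dist ((s, 0) : C × ℝ) (s', 0) = dist s s' := by
        rw [Prod.dist_eq]; simp
      rw [h5] at h4
      exact (h4.rpow_const (p := p) (Or.inr h0.le)).congr fun n => (hdn _ _).symm
    rw [one_mul, ← dist_eq_norm]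
    exact (tendsto_nhds_unique h2 h3).le
  · have hlim : ∀ s : C, ((snowCLM p E).comp β) (δ' s) = (s : E) - ((o : C × ℝ).1 : E) := by
      intro s
      have h2 : Tendsto (fun n => ((snowCLM p E).comp β) (δ (b s n))) atTop
          (𝓝 (((snowCLM p E).comp β) (δ' s))) :=
        (((snowCLM p E).comp β).continuous.tendsto _).comp (hδ' s)
      have h3 : Tendsto (fun n => ((snowCLM p E).comp β) (δ (b s n))) atTop
          (𝓝 ((s : E) - ((o : C × ℝ).1 : E))) := by
        have h4 : Tendsto (fun n => ((a n s : C) : E) - ((o : C × ℝ).1 : E)) atTop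
            (𝓝 ((s : E) - ((o : C × ℝ).1 : E))) :=
          ((continuous_subtype_val.tendsto s).comp (ha s)).sub_const _
        refine h4.congr fun n => ?_
        show _ = ofSnow (β (δ (b s n)))
        rw [hβ]
        rfl
      exact tendsto_nhds_unique h2 h3
    rw [hlim, hlim, sub_sub_sub_cancel_right]

end Pool.Agent.Results.MP_7b119f_an.IncompleteDiscreteNoAP
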